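import Mathlib

/-!
# Finiteness of objects up to isomorphism: base change and tensor products
-/

set_option autoImplicit false

open CategoryTheory MonoidalCategory

namespace Pool.Agent.X264.SHA

section one

variable {C : Type} [Category.{0} C]

/-- the objects with the property `P` lie in finitely many isomorphism classes -/
def FinitelyMany (P : C → Prop) : Prop :=
  ∃ s : Set C, s.Finite ∧ ∀ M, P M → ∃ N ∈ s, Nonempty (M ≅ N)

variable [Preadditive C]

/-- `Y` is a summand of `X` up to `m`: there are `Y → X → Y` with composite `m` -/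
def NearSummand (m : ℤ) (Y X : C) : Prop := ∃ (i : Y ⟶ X) (p : X ⟶ Y), i ≫ p = m • 𝟙 Y

variable (C) in
/-- **Hypothesis** (Jordan-Zassenhaus, Borel): for each object `X` and each `m ≠ 0` the objects
which are summands of `X` up to `m` lie in finitely many isomorphism classes -/
def FiniteSummands : Prop :=
  ∀ (X : C) (m : ℤ), m ≠ 0 → FinitelyMany (fun Y : C => NearSummand m Y X)

theorem NearSummand.of_iso {m : ℤ} {Y X X' : C} (h : NearSummand m Y X) (e : X ≅ X') :
    NearSummand m Y X' := by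
  obtain ⟨i, p, hip⟩ := h
  exact ⟨i ≫ e.hom, e.inv ≫ p, by simp [hip]⟩

/-- finiteness can be tested on the images of a map which is a retraction up to `m` -/
theorem finitelyMany_of_map (hC : FiniteSummands C) {D : Type} [Category.{0} D] (P : C → Prop)
    (Q : D → Prop) (Φ : C → D) (Ψ : D ⥤ C) (m : ℤ) (hm : m ≠ 0)
    (h : ∀ M, P M → Q (Φ M) ∧ NearSummand m M (Ψ.obj (Φ M))) (hQ : FinitelyMany Q) :
    FinitelyMany P := by
  classical
  obtain ⟨s, hs, hsQ⟩ := hQ
  choose t ht htY using fun N : D => hC (Ψ.obj N) m hm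
  refine ⟨⋃ N ∈ s, t N, hs.biUnion fun N _ => ht N, fun M hM => ?_⟩
  obtain ⟨h1, h2⟩ := h M hM
  obtain ⟨N, hN, ⟨e⟩⟩ := hsQ _ h1
  obtain ⟨Y, hY, hMY⟩ := htY N M (h2.of_iso (Ψ.mapIso e))
  exact ⟨Y, Set.mem_biUnion hN hY, hMY⟩

end one

section tensor

variable {C : Type} [Category.{0} C] [MonoidalCategory C] [SymmetricCategory C] [Preadditive C]

/-- `N` has a dual and the dimension `m`: the composite of the coevaluation and of the evaluation
is `m` -/
def HasDim (N : C) (m : ℤ) : Prop :=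
  ∃ (D : C) (_ : ExactPairing N D), η_ N D ≫ (β_ N D).hom ≫ ε_ N D = m • 𝟙 (𝟙_ C)

variable [MonoidalPreadditive C]

theorem nearSummand_tensor {N : C} {m : ℤ} (h : HasDim N m) :
    ∃ D : C, ∀ M : C, NearSummand m M ((tensorRight D).obj (M ⊗ N)) := by
  obtain ⟨D, _, hD⟩ := h
  refine ⟨D, fun M => ⟨(ρ_ M).inv ≫ M ◁ η_ N D ≫ (α_ M N D).inv,
    (α_ M N D).hom ≫ M ◁ ((β_ N D).hom ≫ ε_ N D) ≫ (ρ_ M).hom, ?_⟩⟩
  have h1 : ((ρ_ M).inv ≫ M ◁ η_ N D ≫ (α_ M N D).inv) ≫
      (α_ M N D).hom ≫ M ◁ ((β_ N D).hom ≫ ε_ N D) ≫ (ρ_ M).hom =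
      (ρ_ M).inv ≫ M ◁ (η_ N D ≫ (β_ N D).hom ≫ ε_ N D) ≫ (ρ_ M).hom := by
    simp
  rw [h1, hD]
  have h2 : M ◁ (m • 𝟙 (𝟙_ C)) = m • 𝟙 (M ⊗ 𝟙_ C) := by
    have := (tensorLeft M).map_zsmul (f := 𝟙 (𝟙_ C)) (r := m)
    simpa using this
  rw [h2]
  simp

end tensor

/-- pure integral motives over number fields: the categories, the base change and the restriction of
scalars, and the motives of weight `w` with Hodge numbers `h` (a function of `r`), with pure good
reduction outside `S` and semistable reduction in `S` -/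
structure Motives where
  /-- number fields -/
  Fld : Type
  /-- the pure integral motives over `F` -/
  Mot : Fld → Type
  /-- morphisms -/
  cat : ∀ F, Category.{0} (Mot F)
  /-- tensor products -/
  mon : ∀ F, MonoidalCategory (Mot F)
  /-- their symmetry -/
  sym : ∀ F, SymmetricCategory (Mot F)
  /-- sums of morphisms -/
  add : ∀ F, Preadditive (Mot F)
  /-- tensor products are additive -/
  monadd : ∀ F, MonoidalPreadditive (Mot F)
  /-- `Ext F F'`: the embeddings of `F` into `F'` -/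
  Ext : Fld → Fld → Type
  /-- base change -/
  bc : ∀ {F F'}, Ext F F' → Mot F → Mot F'
  /-- restriction of scalars -/
  rs : ∀ {F F'}, Ext F F' → Mot F' ⥤ Mot F
  /-- the conditions of the conjecture -/
  Good : ∀ F, ℕ → (ℕ → ℕ) → Finset ℕ → Mot F → Prop

namespace Motives

variable (X : Motives)

instance (F : X.Fld) : Category.{0} (X.Mot F) := X.cat F
instance (F : X.Fld) : MonoidalCategory (X.Mot F) := X.mon F
instance (F : X.Fld) : SymmetricCategory (X.Mot F) := X.sym F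
instance (F : X.Fld) : Preadditive (X.Mot F) := X.add F
instance (F : X.Fld) : MonoidalPreadditive (X.Mot F) := X.monadd F

/-- the conjecture for `F`, `w`, `h`, `S` -/
def Fin (F : X.Fld) (w : ℕ) (h : ℕ → ℕ) (S : Finset ℕ) : Prop := FinitelyMany (X.Good F w h S)

/-- **Hypothesis**: base change preserves the conditions, and `M` is a summand up to the degree of
`F'` over `F` of the restriction of scalars of its base change -/
def BaseChange : Prop :=
  ∀ (F F' : X.Fld) (e : X.Ext F F'), ∃ d : ℤ, d ≠ 0 ∧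
    ∀ M : X.Mot F, NearSummand d M ((X.rs e).obj (X.bc e M)) ∧
      ∀ (w : ℕ) (h : ℕ → ℕ) (S : Finset ℕ), X.Good F w h S M → X.Good F' w h S (X.bc e M)

/-- the Hodge numbers of a tensor product -/
def conv (h h' : ℕ → ℕ) (r : ℕ) : ℕ := ∑ a ∈ Finset.range (r + 1), h a * h' (r - a)

/-- **Hypothesis**: the Künneth formula, and reduction of tensor products -/
def Tensor : Prop :=
  ∀ (F : X.Fld) (M N : X.Mot F) (w w' : ℕ) (h h' : ℕ → ℕ) (S : Finset ℕ),
    X.Good F w h S M → X.Good F w' h' S N → X.Good F (w + w') (conv h h') S (M ⊗ N)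

/-- **Hypothesis** (an elliptic curve with complex multiplication acquires good reduction
everywhere): each field has an extension with a motive of odd weight, nonzero dimension and pure
good reduction everywhere -/
def OddMotive : Prop :=
  ∀ F : X.Fld, ∃ (F' : X.Fld) (_ : X.Ext F F') (N : X.Mot F') (m : ℤ) (w : ℕ) (h : ℕ → ℕ),
    HasDim N m ∧ m ≠ 0 ∧ Odd w ∧ ∀ S, X.Good F' w h S N

variable {X}

theorem fin_of_ext (hJ : ∀ F, FiniteSummands (X.Mot F)) (hB : X.BaseChange) {F F' : X.Fld}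
    (e : X.Ext F F') {w : ℕ} {h : ℕ → ℕ} {S : Finset ℕ} (hF : X.Fin F' w h S) :
    X.Fin F w h S := by
  obtain ⟨d, hd, hM⟩ := hB F F' e
  exact finitelyMany_of_map (hJ F) _ _ (X.bc e) (X.rs e) d hd
    (fun M hP => ⟨(hM M).2 w h S hP, (hM M).1⟩) hF

theorem fin_of_tensor (hJ : ∀ F, FiniteSummands (X.Mot F)) (hT : X.Tensor) {F : X.Fld}
    {N : X.Mot F} {m : ℤ} (hN : HasDim N m) (hm : m ≠ 0) {w w' : ℕ} {h h' : ℕ → ℕ}
    {S : Finset ℕ} (hN' : X.Good F w' h' S N) (hF : X.Fin F (w + w') (conv h h') S) :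
    X.Fin F w h S := by
  obtain ⟨D, hD⟩ := nearSummand_tensor hN
  exact finitelyMany_of_map (hJ F) _ _ (fun M => M ⊗ N) (tensorRight D) m hm
    (fun M hP => ⟨hT F M N w w' h h' S hP hN', hD M⟩) hF

/-- each field has an extension with the property `B` -/
def Cofinal (B : X.Fld → Prop) : Prop := ∀ F : X.Fld, ∃ F', B F' ∧ Nonempty (X.Ext F F')

/-- **Hypothesis**: Tate twists, and extensions can be composed, places can be added to `S` -/
def Twists : Prop :=
  (∀ (F : X.Fld), ∃ (N : X.Mot F) (m : ℤ) (h : ℕ → ℕ), HasDim N m ∧ m ≠ 0 ∧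
    ∀ S, X.Good F 2 h S N) ∧
  (∀ (F : X.Fld) (M : X.Mot F) (w : ℕ) (h : ℕ → ℕ) (S S' : Finset ℕ), S ⊆ S' →
    X.Good F w h S M → X.Good F w h S' M)

theorem fin_of_places (hX : Twists (X := X)) {F : X.Fld} {w : ℕ} {h : ℕ → ℕ} {S S' : Finset ℕ}
    (hS : S ⊆ S') (hF : X.Fin F w h S') : X.Fin F w h S := by
  obtain ⟨s, hs, hs'⟩ := hF
  exact ⟨s, hs, fun M hM => hs' M (hX.2 F M w h S S' hS hM)⟩

theorem fin_of_twist (hJ : ∀ F, FiniteSummands (X.Mot F)) (hT : X.Tensor)
    (hX : Twists (X := X)) (F : X.Fld) (j : ℕ) :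
    ∀ (w : ℕ) (h : ℕ → ℕ) (S : Finset ℕ), (∀ h', X.Fin F (w + 2 * j) h' S) → X.Fin F w h S := by
  induction j with
  | zero => intro w h S hF; exact hF h
  | succ j ih =>
    intro w h S hF
    obtain ⟨N, m, h', hN, hm, hG⟩ := hX.1 F
    refine fin_of_tensor hJ hT hN hm (hG S) (ih (w + 2) _ S fun h'' => ?_)
    have := hF h''
    rwa [show w + 2 * (j + 1) = w + 2 + 2 * j by ring] at this

/-- **the reduction** -/
theorem reduction (hJ : ∀ F, FiniteSummands (X.Mot F)) (hB : X.BaseChange) (hT : X.Tensor)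
    (hO : X.OddMotive) (hX : Twists (X := X)) (B : X.Fld → Prop) (hB' : Cofinal B) (w₀ : ℕ)
    (S₀ : Finset ℕ)
    (h : ∀ F, B F → ∀ w, Even w → w₀ ≤ w → ∀ h S, S₀ ⊆ S → X.Fin F w h S) (F : X.Fld) (w : ℕ)
    (h' : ℕ → ℕ) (S : Finset ℕ) : X.Fin F w h' S := by
  -- even weights
  have h1 : ∀ (F : X.Fld) (w : ℕ), Even w → ∀ (h' : ℕ → ℕ) (S : Finset ℕ), X.Fin F w h' S := by
    intro F w hw h' S
    obtain ⟨F', hF', ⟨e⟩⟩ := hB' F
    refine fin_of_ext hJ hB e (fin_of_twist hJ hT hX F' w₀ w h' S fun h'' => ?_)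
    refine fin_of_places hX (Finset.subset_union_left : S ⊆ S ∪ S₀) ?_
    exact h F' hF' _ (hw.add (even_two_mul w₀)) (by omega) h'' _ Finset.subset_union_right
  rcases Nat.even_or_odd w with hw | hw
  · exact h1 F w hw h' S
  · obtain ⟨F', e, N, m, w', h'', hN, hm, hw', hG⟩ := hO F
    exact fin_of_ext hJ hB e (fin_of_tensor hJ hT hN hm (hG S) (h1 F' (w + w') (hw.add_odd hw') _ S))

end Motives

end Pool.Agent.X264.SHA
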